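import Mathlib

/-!
Ranks of linear maps: adding a large multiple of a map, composition, extension of scalars.
-/

set_option autoImplicit false

namespace Pool.Agent.V7H4.NC

open Module TensorProduct

section field

variable {E X Y X' Y' : Type*} [Field E] [AddCommGroup X] [Module E X] [AddCommGroup Y] [Module E Y]
  [AddCommGroup X'] [Module E X'] [AddCommGroup Y'] [Module E Y']

/-- the rank of a linear map -/
noncomputable def rk (f : X →ₗ[E] Y) : ℕ := finrank E (LinearMap.range f)

theorem rk_comp_le_left [FiniteDimensional E X] (f : X →ₗ[E] Y) (P : X' →ₗ[E] X) :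
    rk (f ∘ₗ P) ≤ rk f := by
  apply Submodule.finrank_mono
  exact LinearMap.range_comp_le_range P f

theorem rk_comp_le_right [FiniteDimensional E X] (f : X →ₗ[E] Y) (Q : Y →ₗ[E] Y') :
    rk (Q ∘ₗ f) ≤ rk f := by
  unfold rk
  rw [LinearMap.range_comp]
  exact Submodule.finrank_map_le Q _

theorem rk_zero : rk (0 : X →ₗ[E] Y) = 0 := by
  unfold rk
  rw [LinearMap.range_zero]
  exact finrank_bot E Y

theorem rk_of_injective [FiniteDimensional E X] {f : X →ₗ[E] Y} (hf : Function.Injective f) :
    rk f = finrank E X := LinearMap.finrank_range_of_inj hf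

/-- rank of block triangular maps -/
theorem rk_block {X'' : Type*} [AddCommGroup X''] [Module E X''] [FiniteDimensional E X]
    [FiniteDimensional E X'']
    (T : X →ₗ[E] Y) (P : X'' →ₗ[E] X) (Q : Y →ₗ[E] Y') (P' : X' →ₗ[E] X)
    (h : Q ∘ₗ T ∘ₗ P = 0) : rk (T ∘ₗ P) + rk (Q ∘ₗ T ∘ₗ P') ≤ rk T := by
  have h1 : rk (Q ∘ₗ T ∘ₗ P') ≤ rk (Q ∘ₗ T) := by
    rw [← LinearMap.comp_assoc]
    exact rk_comp_le_left _ _
  have h2 : rk (T ∘ₗ P) + rk (Q ∘ₗ T) ≤ rk T := by
    have h3 := LinearMap.finrank_range_add_finrank_ker (Q.domRestrict (LinearMap.range T))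
    have h4 : LinearMap.range (Q.domRestrict (LinearMap.range T)) = LinearMap.range (Q ∘ₗ T) := by
      rw [LinearMap.range_domRestrict, LinearMap.range_comp]
    have h5 : rk (T ∘ₗ P) ≤ finrank E (LinearMap.ker (Q.domRestrict (LinearMap.range T))) := by
      let φ : LinearMap.range (T ∘ₗ P) →ₗ[E] LinearMap.ker (Q.domRestrict (LinearMap.range T)) :=
        { toFun := fun y => ⟨⟨(y : Y), by
            obtain ⟨x, hx⟩ := y.2
            exact ⟨P x, by rw [← hx]; rfl⟩⟩, by
            rw [LinearMap.mem_ker, LinearMap.domRestrict_apply]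
            obtain ⟨x, hx⟩ := y.2
            have := LinearMap.congr_fun h x
            simp only [LinearMap.comp_apply, LinearMap.zero_apply] at this hx
            change Q (y : Y) = 0
            rw [← hx, this]⟩
          map_add' := fun a b => rfl
          map_smul' := fun a b => rfl }
      have hφ : Function.Injective φ := by
        intro a b hab
        exact Subtype.ext (congrArg (fun z : LinearMap.ker (Q.domRestrict (LinearMap.range T)) =>
          ((z : LinearMap.range T) : Y)) hab)
      exact LinearMap.finrank_le_finrank_of_injective hφ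
    unfold rk at *
    rw [h4] at h3
    omega
  omega

/-- adding a large multiple of a map -/
theorem exists_rk_add_smul [Infinite E] [FiniteDimensional E X] [FiniteDimensional E X']
    (B S : X →ₗ[E] Y) (P : X' →ₗ[E] X) (Q : Y →ₗ[E] Y') (hBP : B ∘ₗ P = 0) (hQB : Q ∘ₗ B = 0) :
    ∃ t : E, rk B + rk (Q ∘ₗ S ∘ₗ P) ≤ rk (S + t • B) := by
  obtain ⟨C, hC⟩ := Submodule.exists_isCompl (LinearMap.ker B)
  obtain ⟨D, hD⟩ := Submodule.exists_isCompl (LinearMap.ker (Q ∘ₗ S ∘ₗ P))
  have kerC : LinearMap.ker (B ∘ₗ C.subtype) = ⊥ := by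
    rw [LinearMap.ker_eq_bot']
    intro c hc
    have h1 : (c : X) ∈ LinearMap.ker B ⊓ C := ⟨hc, c.2⟩
    rw [hC.inf_eq_bot, Submodule.mem_bot] at h1
    exact Subtype.ext h1
  have kerD : LinearMap.ker ((Q ∘ₗ S ∘ₗ P) ∘ₗ D.subtype) = ⊥ := by
    rw [LinearMap.ker_eq_bot']
    intro c hc
    have h1 : (c : X') ∈ LinearMap.ker (Q ∘ₗ S ∘ₗ P) ⊓ D := ⟨hc, c.2⟩
    rw [hD.inf_eq_bot, Submodule.mem_bot] at h1
    exact Subtype.ext h1
  obtain ⟨G, hG⟩ := LinearMap.exists_leftInverse_of_injective _ kerC
  obtain ⟨J, hJ⟩ := LinearMap.exists_leftInverse_of_injective _ kerD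
  have hG' : ∀ c : C, G (B c) = c := fun c => LinearMap.congr_fun hG c
  have hJ' : ∀ d : D, J (Q (S (P d))) = d := fun d => LinearMap.congr_fun hJ d
  let N : Module.End E C := G ∘ₗ (S - S ∘ₗ P ∘ₗ D.subtype ∘ₗ J ∘ₗ Q ∘ₗ S) ∘ₗ C.subtype
  have hN : ∀ c : C, N c = G (S c) - G (S (P (J (Q (S c)) : D))) := by
    intro c
    simp [N, map_sub]
  obtain ⟨t, ht⟩ : ∃ t : E, ¬ N.HasEigenvalue (-t) := by
    by_contra hcon
    push Not at hcon
    have h1 : (Set.univ : Set E) ⊆ (fun t : E => -t) ⁻¹' {μ | N.HasEigenvalue μ} := fun t _ => hcon t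
    have h2 : ((fun t : E => -t) ⁻¹' {μ | N.HasEigenvalue μ}).Finite :=
      Set.Finite.preimage (neg_injective.injOn) (Module.End.finite_hasEigenvalue N)
    exact Set.infinite_univ (h2.subset h1)
  refine ⟨t, ?_⟩
  let Θ : (C × D) →ₗ[E] X := LinearMap.coprod C.subtype (P ∘ₗ D.subtype)
  have hΘ : ∀ c d, Θ (c, d) = (c : X) + P d := fun c d => by simp [Θ]
  have hinj : Function.Injective ((S + t • B) ∘ₗ Θ) := by
    rw [← LinearMap.ker_eq_bot, LinearMap.ker_eq_bot']
    rintro ⟨c, d⟩ h
    rw [LinearMap.comp_apply, hΘ] at h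
    have hBPd : B (P d) = 0 := LinearMap.congr_fun hBP (d : X')
    have h0 : S c + S (P d) + t • B c = 0 := by
      have : (S + t • B) ((c : X) + P d) = S c + S (P d) + t • B c := by
        simp only [LinearMap.add_apply, LinearMap.smul_apply, map_add, hBPd, smul_zero]
        abel
      rw [← this]; exact h
    have hQ : ∀ x, Q (B x) = 0 := fun x => LinearMap.congr_fun hQB x
    have h1 : Q (S c) + Q (S (P d)) = 0 := by
      have := congrArg Q h0
      simpa [hQ] using this
    have h2 : d = - J (Q (S c)) := by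
      have h3 : Q (S (P d)) = - Q (S c) := by
        rw [← add_eq_zero_iff_eq_neg, add_comm]; exact h1
      have := hJ' d
      rw [h3, map_neg] at this
      exact this.symm
    have h4 : N c = (-t) • c := by
      have h5 := congrArg G h0
      rw [map_add, map_add, map_smul, hG', map_zero] at h5
      have h6 : G (S (P d)) = - G (S (P (J (Q (S c)) : D))) := by
        rw [h2]
        push_cast
        rw [map_neg, map_neg, map_neg]
      rw [hN, neg_smul]
      rw [h6] at h5
      rw [eq_neg_iff_add_eq_zero]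
      rw [← h5]
      abel
    have hc : c = 0 := by
      by_contra hc
      exact ht (Module.End.hasEigenvalue_of_hasEigenvector
        (Module.End.hasEigenvector_iff.2 ⟨Module.End.mem_eigenspace_iff.2 h4, hc⟩))
    have hd : d = 0 := by
      rw [h2, hc]; simp
    rw [hc, hd]
    rfl
  have h7 : rk ((S + t • B) ∘ₗ Θ) = finrank E C + finrank E D := by
    rw [rk_of_injective hinj, Module.finrank_prod]
  have h8 : rk B = finrank E C := by
    have h9 := LinearMap.finrank_range_add_finrank_ker B
    have h10 := Submodule.finrank_add_eq_of_isCompl hC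
    unfold rk; omega
  have h11 : rk (Q ∘ₗ S ∘ₗ P) = finrank E D := by
    have h9 := LinearMap.finrank_range_add_finrank_ker (Q ∘ₗ S ∘ₗ P)
    have h10 := Submodule.finrank_add_eq_of_isCompl hD
    unfold rk; omega
  rw [h8, h11, ← h7]
  exact rk_comp_le_left _ _

end field

section ext

variable {F V W : Type*} [Field F] [AddCommGroup V] [Module F V] [AddCommGroup W] [Module F W]

theorem rk_baseChange (E : Type*) [Field E] [Algebra F E] [FiniteDimensional F V]
    (f : V →ₗ[F] W) : rk (f.baseChange E) = rk f := by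
  unfold rk
  have h1 : f = (LinearMap.range f).subtype ∘ₗ f.rangeRestrict := by
    ext x; rfl
  have h2 : LinearMap.range (f.baseChange E) =
      LinearMap.range ((LinearMap.range f).subtype.baseChange E) := by
    conv_lhs => rw [h1, LinearMap.baseChange_comp]
    apply LinearMap.range_comp_of_range_eq_top
    rw [LinearMap.range_eq_top]
    exact LinearMap.lTensor_surjective E f.surjective_rangeRestrict
  have h3 : Function.Injective ((LinearMap.range f).subtype.baseChange E) :=
    Module.Flat.lTensor_preserves_injective_linearMap (M := E) _ (Submodule.subtype_injective _)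
  rw [h2, LinearMap.finrank_range_of_inj h3, Module.finrank_baseChange]

end ext

end Pool.Agent.V7H4.NC
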