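import Pool.Agent.V7H4.NC.A

/-!
The noncommutative rank of a pencil `A₀ + ∑ xᵢ Aᵢ` and its rank.
-/

set_option autoImplicit false
set_option linter.unusedSectionVars false

namespace Pool.Agent.V7H4.NC

open Module TensorProduct

section pencil

variable {F ι V W : Type*} [Field F] [AddCommGroup V] [Module F V] [AddCommGroup W] [Module F W]

/-- the space `A₀ U + ∑ Aᵢ U` -/
def img (A₀ : V →ₗ[F] W) (A : ι → V →ₗ[F] W) (U : Submodule F V) : Submodule F W :=
  U.map A₀ ⊔ ⨆ i, U.map (A i)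

/-- `dim V - dim U + dim (A₀ U + ∑ Aᵢ U)` -/
noncomputable def val (A₀ : V →ₗ[F] W) (A : ι → V →ₗ[F] W) (U : Submodule F V) : ℕ :=
  finrank F (img A₀ A U) + (finrank F V - finrank F U)

variable (A₀ : V →ₗ[F] W) (A : ι → V →ₗ[F] W)

theorem map_zero_le_img (U : Submodule F V) : U.map A₀ ≤ img A₀ A U := le_sup_left

theorem map_le_img (U : Submodule F V) (i : ι) : U.map (A i) ≤ img A₀ A U :=
  le_trans (le_iSup (fun i => U.map (A i)) i) le_sup_right

theorem img_mono {U U' : Submodule F V} (h : U ≤ U') : img A₀ A U ≤ img A₀ A U' :=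
  sup_le_sup (Submodule.map_mono h) (iSup_mono fun _ => Submodule.map_mono h)

theorem img_sup (U U' : Submodule F V) : img A₀ A (U ⊔ U') = img A₀ A U ⊔ img A₀ A U' := by
  unfold img
  simp only [Submodule.map_sup]
  rw [iSup_sup_eq]
  ac_rfl

theorem img_inf_le (U U' : Submodule F V) : img A₀ A (U ⊓ U') ≤ img A₀ A U ⊓ img A₀ A U' :=
  le_inf (img_mono A₀ A inf_le_left) (img_mono A₀ A inf_le_right)

theorem img_bot : img A₀ A (⊥ : Submodule F V) = ⊥ := by
  unfold img
  simp

theorem img_of_ker {M : Submodule F V} (hM : ∀ i, M ≤ LinearMap.ker (A i)) :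
    img A₀ A M = M.map A₀ := by
  unfold img
  have : ∀ i, M.map (A i) = ⊥ := fun i => LinearMap.le_ker_iff_map.1 (hM i)
  simp [this]

theorem img_comp {V' W' : Type*} [AddCommGroup V'] [Module F V'] [AddCommGroup W'] [Module F W']
    (P : V' →ₗ[F] V) (Q : W →ₗ[F] W') (U : Submodule F V') :
    img (Q ∘ₗ A₀ ∘ₗ P) (fun i => Q ∘ₗ A i ∘ₗ P) U = (img A₀ A (U.map P)).map Q := by
  unfold img
  rw [Submodule.map_sup, Submodule.map_iSup]
  simp only [Submodule.map_comp]

theorem finrank_sup_quot [FiniteDimensional F W] (N Z : Submodule F W) :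
    finrank F (N ⊔ Z : Submodule F W) = finrank F N + finrank F (Z.map N.mkQ) := by
  have h1 := Submodule.finrank_sup_add_finrank_inf_eq N Z
  have h2 := LinearMap.finrank_range_add_finrank_ker (N.mkQ.domRestrict Z)
  rw [LinearMap.range_domRestrict] at h2
  have h3 : finrank F (LinearMap.ker (N.mkQ.domRestrict Z)) = finrank F (N ⊓ Z : Submodule F W) := by
    have h4 : LinearMap.ker (N.mkQ.domRestrict Z) = Submodule.comap Z.subtype N := by
      ext x
      simp [LinearMap.mem_ker]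
    have h5 : (Submodule.comap Z.subtype N).map Z.subtype = N ⊓ Z := by
      rw [Submodule.map_comap_subtype, inf_comm]
    rw [h4, ← h5]
    exact (LinearEquiv.finrank_eq (Submodule.equivMapOfInjective _ Z.injective_subtype _))
  omega

variable [FiniteDimensional F V] [FiniteDimensional F W]

/-- the subspace minimises `val` -/
def IsMin (U : Submodule F V) : Prop := ∀ U', val A₀ A U ≤ val A₀ A U'

theorem exists_isMin : ∃ U, IsMin A₀ A U :=
  ⟨Function.argmin (val A₀ A), fun U' => Function.argmin_le (val A₀ A) U'⟩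

theorem dim_le (U : Submodule F V) : finrank F U ≤ finrank F V := Submodule.finrank_le U

theorem IsMin.inf {U U' : Submodule F V} (h : IsMin A₀ A U) (h' : IsMin A₀ A U') :
    IsMin A₀ A (U ⊓ U') := by
  intro Z
  refine le_trans ?_ (h Z)
  have h1 := h' (U ⊔ U')
  have h2 := Submodule.finrank_sup_add_finrank_inf_eq U U'
  have h3 := Submodule.finrank_sup_add_finrank_inf_eq (img A₀ A U) (img A₀ A U')
  have h4 := Submodule.finrank_mono (img_inf_le A₀ A U U')
  have h5 := dim_le U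
  have h6 := dim_le U'
  have h7 := dim_le (U ⊔ U')
  have h8 := dim_le (U ⊓ U')
  unfold val at *
  rw [img_sup] at h1
  omega

/-- There is an index with a good contraction. -/
theorem exists_good (hker : ⨅ i, LinearMap.ker (A i) = ⊥) (hV : 0 < finrank F V) :
    ∃ i, A i ≠ 0 ∧ ∀ U, IsMin A₀ A U → U ≤ LinearMap.ker (A i) →
      ¬ LinearMap.range (A i) ≤ img A₀ A U := by
  classical
  by_contra hcon
  push Not at hcon
  -- `⊥` is a minimiser
  have hbot : IsMin A₀ A ⊥ := by
    obtain ⟨U₀, hU₀⟩ := exists_isMin A₀ A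
    obtain ⟨M, hM, hmin⟩ : ∃ M, IsMin A₀ A M ∧ ∀ U, IsMin A₀ A U → finrank F M ≤ finrank F U := by
      let S : Set ℕ := {k | ∃ U, IsMin A₀ A U ∧ finrank F U = k}
      have hS : S.Nonempty := ⟨_, U₀, hU₀, rfl⟩
      obtain ⟨M, hM, hMk⟩ := Nat.sInf_mem hS
      exact ⟨M, hM, fun U hU => hMk ▸ Nat.sInf_le ⟨U, hU, rfl⟩⟩
    have hle : ∀ U, IsMin A₀ A U → M ≤ U := by
      intro U hU
      have h1 := hmin _ (hM.inf A₀ A hU)
      have h2 : M ⊓ U = M := Submodule.eq_of_le_of_finrank_le inf_le_left h1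
      exact inf_eq_left.1 h2
    have : M = ⊥ := by
      rw [eq_bot_iff, ← hker]
      refine le_iInf fun i => ?_
      by_cases hi : A i = 0
      · rw [hi, LinearMap.ker_zero]; exact le_top
      · obtain ⟨U, hU, hU2, -⟩ := hcon i hi
        exact (hle U hU).trans hU2
    rwa [this] at hM
  have hval : val A₀ A (⊥ : Submodule F V) = finrank F V := by
    unfold val
    rw [img_bot]
    simp
  have htight : ∀ U, IsMin A₀ A U → finrank F (img A₀ A U) = finrank F U := by
    intro U hU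
    have h1 := hU ⊥
    have h2 := hbot U
    rw [hval] at h1 h2
    have h3 := dim_le U
    unfold val at h1 h2
    omega
  have hdim : ∀ U : Submodule F V, finrank F U ≤ finrank F (img A₀ A U) := by
    intro U
    have h2 := hbot U
    rw [hval] at h2
    have h3 := dim_le U
    unfold val at h2
    omega
  -- there is a nonzero minimiser
  obtain ⟨i₀, hi₀⟩ : ∃ i, A i ≠ 0 := by
    by_contra hall
    push Not at hall
    have h1 : (⨅ i, LinearMap.ker (A i)) = ⊤ := by
      rw [iInf_eq_top]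
      intro i
      rw [hall i, LinearMap.ker_zero]
    rw [h1] at hker
    have h2 : finrank F V = 0 := by
      rw [← finrank_top F V, hker, finrank_bot]
    omega
  obtain ⟨U₁, hU₁, -, hU₁r⟩ := hcon i₀ hi₀
  have hU₁0 : U₁ ≠ ⊥ := by
    rintro rfl
    rw [img_bot] at hU₁r
    exact hi₀ (LinearMap.range_eq_bot.1 (le_bot_iff.1 hU₁r))
  obtain ⟨M, hM, hM0, hmin⟩ : ∃ M, IsMin A₀ A M ∧ M ≠ ⊥ ∧
      ∀ U, IsMin A₀ A U → U ≠ ⊥ → finrank F M ≤ finrank F U := by
    let S : Set ℕ := {k | ∃ U, IsMin A₀ A U ∧ U ≠ ⊥ ∧ finrank F U = k}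
    have hS : S.Nonempty := ⟨_, U₁, hU₁, hU₁0, rfl⟩
    obtain ⟨M, hM, hM0, hMk⟩ := Nat.sInf_mem hS
    exact ⟨M, hM, hM0, fun U hU hU0 => hMk ▸ Nat.sInf_le ⟨U, hU, hU0, rfl⟩⟩
  apply hM0
  rw [eq_bot_iff, ← hker]
  refine le_iInf fun j => ?_
  by_cases hj : A j = 0
  · rw [hj, LinearMap.ker_zero]; exact le_top
  obtain ⟨U, hU, hU2, hU3⟩ := hcon j hj
  by_cases hMU : M ⊓ U = ⊥
  · have h1 := Submodule.finrank_sup_add_finrank_inf_eq M U
    have h2 := Submodule.finrank_sup_add_finrank_inf_eq (img A₀ A M) (img A₀ A U)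
    have h3 := hdim (M ⊔ U)
    rw [img_sup] at h3
    rw [hMU, finrank_bot] at h1
    rw [htight M hM, htight U hU] at h2
    have h4 : finrank F (img A₀ A M ⊓ img A₀ A U : Submodule F W) = 0 := by omega
    have h5 : img A₀ A M ⊓ img A₀ A U = ⊥ := Submodule.finrank_eq_zero.1 h4
    have h6 : M.map (A j) ≤ ⊥ := by
      rw [← h5]
      refine le_inf (map_le_img A₀ A M j) (le_trans ?_ hU3)
      exact LinearMap.map_le_range
    exact LinearMap.le_ker_iff_map.2 (le_bot_iff.1 h6)
  · have h1 := hmin _ (hM.inf A₀ A hU) hMU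
    have h2 : M ⊓ U = M := Submodule.eq_of_le_of_finrank_le inf_le_left h1
    exact (inf_eq_left.1 h2).trans hU2

end pencil

section ev

variable {F ι V W : Type*} [Field F] [Fintype ι] [AddCommGroup V] [Module F V] [AddCommGroup W]
  [Module F W] (E : Type*) [Field E] [Algebra F E]

/-- the value of the pencil at a point with coordinates in `E` -/
noncomputable def ev (A₀ : V →ₗ[F] W) (A : ι → V →ₗ[F] W) (x : ι → E) :
    E ⊗[F] V →ₗ[E] E ⊗[F] W :=
  A₀.baseChange E + ∑ i, x i • (A i).baseChange E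

theorem ev_comp (A₀ : V →ₗ[F] W) (A : ι → V →ₗ[F] W) (x : ι → E)
    {V' W' : Type*} [AddCommGroup V'] [Module F V'] [AddCommGroup W'] [Module F W']
    (P : V' →ₗ[F] V) (Q : W →ₗ[F] W') :
    ev E (Q ∘ₗ A₀ ∘ₗ P) (fun i => Q ∘ₗ A i ∘ₗ P) x =
      Q.baseChange E ∘ₗ ev E A₀ A x ∘ₗ P.baseChange E := by
  unfold ev
  ext v
  simp [LinearMap.sum_apply, map_sum]

end ev

end Pool.Agent.V7H4.NC
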