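import Pool.Agent.V7H4.NC.B

/-!
The induction: the noncommutative rank is at most the rank plus the sum of `dᵢ - 1`.
-/

set_option autoImplicit false

namespace Pool.Agent.V7H4.NC

open Module TensorProduct

universe u v w z e

theorem rk_comp_subtype {F V W : Type*} [Field F] [AddCommGroup V] [Module F V] [AddCommGroup W]
    [Module F W] (f : V →ₗ[F] W) (M : Submodule F V) :
    rk (f ∘ₗ M.subtype) = finrank F (M.map f) := by
  unfold rk
  rw [LinearMap.range_comp, Submodule.range_subtype]

theorem main_aux {F : Type u} [Field F] {ι : Type z} [Fintype ι] (E : Type e) [Field E]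
    [Algebra F E] [Infinite E] : ∀ (n : ℕ) (V : Type v) (W : Type w) [AddCommGroup V] [Module F V]
    [FiniteDimensional F V] [AddCommGroup W] [Module F W] [FiniteDimensional F W]
    (A₀ : V →ₗ[F] W) (A : ι → V →ₗ[F] W), finrank F V ≤ n →
    ∃ (U : Submodule F V) (d : ι → ℕ) (x : ι → E), (∀ i, d i ≤ rk (A i)) ∧
      ∑ i, d i ≤ rk (ev E A₀ A x) ∧ val A₀ A U ≤ rk (ev E A₀ A x) + ∑ i, (d i - 1) := by
  classical
  intro n
  induction n with
  | zero =>
    intro V W _ _ _ _ _ _ A₀ A hV
    refine ⟨⊥, 0, 0, fun _ => Nat.zero_le _, by simp, ?_⟩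
    unfold val
    rw [img_bot, finrank_bot]
    omega
  | succ n ih =>
    intro V W _ _ _ _ _ _ A₀ A hV
    by_cases hV0 : finrank F V = 0
    · refine ⟨⊥, 0, 0, fun _ => Nat.zero_le _, by simp, ?_⟩
      unfold val
      rw [img_bot, finrank_bot]
      omega
    by_cases hker : ⨅ i, LinearMap.ker (A i) = ⊥
    · -- contraction
      obtain ⟨i, hi, hgood⟩ := exists_good A₀ A hker (Nat.pos_of_ne_zero hV0)
      set K := LinearMap.ker (A i) with hK
      set R := LinearMap.range (A i) with hR
      have hKV : finrank F K + rk (A i) = finrank F V := by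
        have h0 := LinearMap.finrank_range_add_finrank_ker (A i)
        rw [← hK, ← hR] at h0
        unfold rk
        rw [← hR]
        omega
      have hri : 0 < rk (A i) := by
        unfold rk
        rw [Module.finrank_pos_iff_exists_ne_zero]
        have : R ≠ ⊥ := fun h => hi (LinearMap.range_eq_bot.1 h)
        obtain ⟨y, hy, hy0⟩ := Submodule.exists_mem_ne_zero_of_ne_bot this
        exact ⟨⟨y, hy⟩, fun h => hy0 (congrArg Subtype.val h)⟩
      obtain ⟨U', d', x', hd', hs', hv'⟩ := ih K (W ⧸ R) (R.mkQ ∘ₗ A₀ ∘ₗ K.subtype)
        (fun j => R.mkQ ∘ₗ A j ∘ₗ K.subtype) (by omega)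
      have hAK : A i ∘ₗ K.subtype = 0 := by
        ext v
        exact v.2
      have hRA : R.mkQ ∘ₗ A i = 0 := by
        ext v
        simp [hR]
      have hd'i : d' i = 0 := by
        have h1 := hd' i
        have h2 : R.mkQ ∘ₗ A i ∘ₗ K.subtype = 0 := by rw [hAK, LinearMap.comp_zero]
        rw [h2, rk_zero] at h1
        omega
      obtain ⟨t, ht⟩ := exists_rk_add_smul (E := E) ((A i).baseChange E)
        (ev E A₀ A (Function.update x' i 0)) (K.subtype.baseChange E) (R.mkQ.baseChange E)
        (by rw [← LinearMap.baseChange_comp, hAK, LinearMap.baseChange_zero])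
        (by rw [← LinearMap.baseChange_comp, hRA, LinearMap.baseChange_zero])
      have hev : ev E A₀ A (Function.update x' i 0) + t • (A i).baseChange E =
          ev E A₀ A (Function.update x' i t) := by
        unfold ev
        rw [add_assoc]
        congr 1
        rw [← Finset.add_sum_erase _ _ (Finset.mem_univ i),
          ← Finset.add_sum_erase _ (fun j => Function.update x' i t j • (A j).baseChange E)
            (Finset.mem_univ i)]
        have h1 : ∀ s : E, ∑ j ∈ Finset.univ.erase i,
            Function.update x' i s j • (A j).baseChange E =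
            ∑ j ∈ Finset.univ.erase i, x' j • (A j).baseChange E := by
          intro s
          refine Finset.sum_congr rfl fun j hj => ?_
          rw [Function.update_of_ne (Finset.ne_of_mem_erase hj)]
        rw [h1, h1]
        simp only [Function.update_self, zero_smul, zero_add]
        abel
      have hev' : R.mkQ.baseChange E ∘ₗ ev E A₀ A (Function.update x' i 0) ∘ₗ K.subtype.baseChange E =
          ev E (R.mkQ ∘ₗ A₀ ∘ₗ K.subtype) (fun j => R.mkQ ∘ₗ A j ∘ₗ K.subtype) x' := by
        rw [← ev_comp]
        unfold ev
        congr 1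
        refine Finset.sum_congr rfl fun j _ => ?_
        by_cases hj : j = i
        · subst hj
          beta_reduce
          rw [hAK, LinearMap.comp_zero, LinearMap.baseChange_zero, smul_zero, smul_zero]
        · rw [Function.update_of_ne hj]
      rw [hev, hev', rk_baseChange] at ht
      -- the value
      obtain ⟨U, hU⟩ := exists_isMin A₀ A
      set U₁ := U'.map K.subtype with hU₁
      have hU₁K : U₁ ≤ K := Submodule.map_subtype_le K U'
      have hfU₁ : finrank F U₁ = finrank F U' :=
        (LinearEquiv.finrank_eq (Submodule.equivMapOfInjective _ K.injective_subtype U')).symm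
      have himg := img_comp A₀ A K.subtype R.mkQ U'
      have hsup := finrank_sup_quot R (img A₀ A U₁)
      have hval : val A₀ A U + 1 ≤ val (R.mkQ ∘ₗ A₀ ∘ₗ K.subtype)
          (fun j => R.mkQ ∘ₗ A j ∘ₗ K.subtype) U' + 2 * rk (A i) := by
        have h1 : val A₀ A U₁ ≤ val (R.mkQ ∘ₗ A₀ ∘ₗ K.subtype)
          (fun j => R.mkQ ∘ₗ A j ∘ₗ K.subtype) U' + 2 * rk (A i) ∧
          (¬ R ≤ img A₀ A U₁ → val A₀ A U₁ + 1 ≤ val (R.mkQ ∘ₗ A₀ ∘ₗ K.subtype)
          (fun j => R.mkQ ∘ₗ A j ∘ₗ K.subtype) U' + 2 * rk (A i)) := by
          have h2 : finrank F (img A₀ A U₁) ≤ finrank F (R ⊔ img A₀ A U₁ : Submodule F W) :=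
            Submodule.finrank_mono le_sup_right
          have h3 : ¬ R ≤ img A₀ A U₁ →
              finrank F (img A₀ A U₁) < finrank F (R ⊔ img A₀ A U₁ : Submodule F W) := by
            intro h
            apply Submodule.finrank_lt_finrank_of_lt
            exact right_lt_sup.2 h
          have h4 : rk (A i) = finrank F R := rfl
          have h5 := Submodule.finrank_le U'
          have h6 : finrank F U' ≤ finrank F K := h5
          unfold val
          rw [himg, hfU₁, ← hU₁]
          constructor
          · omega
          · intro h
            have := h3 h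
            omega
        by_cases hmin : IsMin A₀ A U₁
        · have h2 := h1.2 (hgood U₁ hmin hU₁K)
          have h3 := hU U₁
          omega
        · unfold IsMin at hmin
          push Not at hmin
          obtain ⟨Z, hZ⟩ := hmin
          have h3 := hU Z
          have h4 := h1.1
          omega
      have hsum : ∑ j, Function.update d' i (rk (A i)) j = ∑ j, d' j + rk (A i) := by
        rw [← Finset.add_sum_erase _ _ (Finset.mem_univ i),
          ← Finset.add_sum_erase _ d' (Finset.mem_univ i), Function.update_self, hd'i]
        have h1 : ∑ j ∈ Finset.univ.erase i, Function.update d' i (rk (A i)) j =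
            ∑ j ∈ Finset.univ.erase i, d' j := by
          refine Finset.sum_congr rfl fun j hj => ?_
          rw [Function.update_of_ne (Finset.ne_of_mem_erase hj)]
        rw [h1]
        omega
      have hsum' : ∑ j, (Function.update d' i (rk (A i)) j - 1) =
          ∑ j, (d' j - 1) + (rk (A i) - 1) := by
        rw [← Finset.add_sum_erase _ _ (Finset.mem_univ i),
          ← Finset.add_sum_erase _ (fun j => d' j - 1) (Finset.mem_univ i), Function.update_self,
          hd'i]
        have h1 : ∑ j ∈ Finset.univ.erase i, (Function.update d' i (rk (A i)) j - 1) =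
            ∑ j ∈ Finset.univ.erase i, (d' j - 1) := by
          refine Finset.sum_congr rfl fun j hj => ?_
          rw [Function.update_of_ne (Finset.ne_of_mem_erase hj)]
        rw [h1]
        omega
      refine ⟨U, Function.update d' i (rk (A i)), Function.update x' i t, ?_, ?_, ?_⟩
      · intro j
        by_cases hj : j = i
        · subst hj
          rw [Function.update_self]
        · rw [Function.update_of_ne hj]
          refine (hd' j).trans ((rk_comp_le_right _ _).trans (rk_comp_le_left _ _))
      · rw [hsum]
        omega
      · rw [hsum']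
        omega
    · -- quotient by a subspace killed by all variables
      set M := ⨅ i, LinearMap.ker (A i) with hM
      have hMk : ∀ i, M ≤ LinearMap.ker (A i) := fun i => iInf_le _ i
      obtain ⟨C, hC⟩ := Submodule.exists_isCompl M
      have hMC := Submodule.finrank_add_eq_of_isCompl hC
      have hM0 : 0 < finrank F M := by
        rw [Nat.pos_iff_ne_zero]
        intro h
        exact hker (Submodule.finrank_eq_zero.1 h)
      set N := M.map A₀ with hN
      obtain ⟨U', d, x, hd, hs, hv⟩ := ih C (W ⧸ N) (N.mkQ ∘ₗ A₀ ∘ₗ C.subtype)
        (fun j => N.mkQ ∘ₗ A j ∘ₗ C.subtype) (by omega)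
      rw [ev_comp] at hs hv
      have hT : ev E A₀ A x ∘ₗ M.subtype.baseChange E = (A₀ ∘ₗ M.subtype).baseChange E := by
        have h1 : ∀ i, A i ∘ₗ M.subtype = 0 := by
          intro i
          ext v
          exact hMk i v.2
        have h2 := ev_comp E A₀ A x M.subtype (LinearMap.id (R := F) (M := W))
        simp only [LinearMap.baseChange_id, LinearMap.id_comp] at h2
        rw [← h2]
        unfold ev
        simp only [h1, LinearMap.baseChange_zero, smul_zero, Finset.sum_const_zero, add_zero]
      have hblock := rk_block (ev E A₀ A x) (M.subtype.baseChange E) (N.mkQ.baseChange E)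
        (C.subtype.baseChange E) (by
          rw [hT, ← LinearMap.baseChange_comp]
          have : N.mkQ ∘ₗ A₀ ∘ₗ M.subtype = 0 := by
            ext v
            simp only [LinearMap.comp_apply, Submodule.subtype_apply, Submodule.mkQ_apply,
              LinearMap.zero_apply, Submodule.Quotient.mk_eq_zero]
            exact ⟨v, v.2, rfl⟩
          rw [this, LinearMap.baseChange_zero])
      rw [hT, rk_baseChange, rk_comp_subtype, ← hN] at hblock
      refine ⟨M ⊔ U'.map C.subtype, d, x, ?_, ?_, ?_⟩
      · intro j
        exact (hd j).trans ((rk_comp_le_right _ _).trans (rk_comp_le_left _ _))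
      · omega
      · have h1 : finrank F (M ⊔ U'.map C.subtype : Submodule F V) =
            finrank F M + finrank F U' := by
          have h2 := Submodule.finrank_sup_add_finrank_inf_eq M (U'.map C.subtype)
          have h3 : M ⊓ U'.map C.subtype = ⊥ := by
            rw [eq_bot_iff, ← hC.inf_eq_bot]
            exact inf_le_inf_left M (Submodule.map_subtype_le C U')
          have h4 : finrank F (U'.map C.subtype) = finrank F U' :=
            (LinearEquiv.finrank_eq
              (Submodule.equivMapOfInjective _ C.injective_subtype U')).symm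
          rw [h3, finrank_bot] at h2
          omega
        have h5 : finrank F (img A₀ A (M ⊔ U'.map C.subtype)) = finrank F N +
            finrank F (img (N.mkQ ∘ₗ A₀ ∘ₗ C.subtype) (fun j => N.mkQ ∘ₗ A j ∘ₗ C.subtype) U') := by
          rw [img_sup, img_of_ker A₀ A hMk, ← hN, finrank_sup_quot, img_comp]
        have h6 := Submodule.finrank_le U'
        have h7 : finrank F U' ≤ finrank F C := h6
        unfold val at hv ⊢
        rw [h1, h5]
        omega

end Pool.Agent.V7H4.NC
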