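import Pool.Agent.V7H4.NC.Cc

/-!
Matrices: minors, specialisation, and the comparison of linear maps and matrices.
-/

set_option autoImplicit false
set_option linter.unusedSectionVars false

namespace Pool.Agent.V7H4.NC

open Module TensorProduct Matrix

section minors

variable {K : Type*} [Field K]

theorem exists_rows {m n : Type*} [Fintype m] [Fintype n] (M : Matrix m n K) (k : ℕ)
    (hk : M.rank = k) : ∃ r : Fin k → m, LinearIndependent K (M.submatrix r id).row := by
  classical
  rw [Matrix.rank_eq_finrank_span_row] at hk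
  obtain ⟨f, hf, -, hli⟩ := Submodule.exists_fun_fin_finrank_span_eq K (Set.range M.row)
  choose r hr using hf
  subst hk
  refine ⟨r, ?_⟩
  have : (M.submatrix r id).row = f := by
    funext i
    rw [← hr i]
    rfl
  rw [this]
  exact hli

theorem exists_minor {m n : Type*} [Fintype m] [Fintype n] (M : Matrix m n K) (k : ℕ)
    (hk : M.rank = k) : ∃ (r : Fin k → m) (c : Fin k → n), (M.submatrix r c).det ≠ 0 := by
  classical
  obtain ⟨r, hr⟩ := exists_rows M k hk
  have h1 : (M.submatrix r id)ᵀ.rank = k := by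
    rw [Matrix.rank_transpose]
    rw [LinearIndependent.rank_matrix hr, Fintype.card_fin]
  obtain ⟨c, hc⟩ := exists_rows _ k h1
  refine ⟨r, c, ?_⟩
  have h2 : (M.submatrix r id)ᵀ.submatrix c id = (M.submatrix r c)ᵀ := rfl
  rw [h2, Matrix.linearIndependent_rows_iff_isUnit, Matrix.isUnit_iff_isUnit_det,
    Matrix.det_transpose] at hc
  exact hc.ne_zero

theorem le_rank_of_minor {m n : Type*} [Fintype m] [Fintype n] (M : Matrix m n K) (k : ℕ)
    (r : Fin k → m) (c : Fin k → n) (h : (M.submatrix r c).det ≠ 0) : k ≤ M.rank := by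
  classical
  have h1 : (M.submatrix r c).rank = k := by
    rw [Matrix.rank_of_isUnit _ ((Matrix.isUnit_iff_isUnit_det _).2 (isUnit_iff_ne_zero.2 h)),
      Fintype.card_fin]
  calc k = (M.submatrix r c).rank := h1.symm
    _ ≤ M.rank := Matrix.rank_submatrix_le M r c

/-- specialisation does not increase the rank -/
theorem rank_map_le {R E L : Type*} [CommRing R] [Field E] [Field L] {m n : Type*} [Fintype m]
    [Fintype n] (M : Matrix m n R) (φ : R →+* E) (ψ : R →+* L) (hψ : Function.Injective ψ) :
    (M.map φ).rank ≤ (M.map ψ).rank := by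
  classical
  obtain ⟨r, c, h⟩ := exists_minor (M.map φ) _ rfl
  apply le_rank_of_minor _ _ r c
  have h1 : ((M.map φ).submatrix r c).det = φ (M.submatrix r c).det := by
    rw [RingHom.map_det]; rfl
  have h2 : ((M.map ψ).submatrix r c).det = ψ (M.submatrix r c).det := by
    rw [RingHom.map_det]; rfl
  rw [h1] at h
  rw [h2]
  intro h3
  apply h
  rw [(map_eq_zero_iff ψ hψ).1 h3, map_zero]

end minors

section compare

variable {F : Type*} [Field F] {ι : Type*} [Fintype ι] {m n : ℕ}

theorem rk_eq_rank (E : Type*) [Field E] [Algebra F E] (A₀ : Matrix (Fin m) (Fin n) F)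
    (A : ι → Matrix (Fin m) (Fin n) F) (x : ι → E) :
    rk (ev E A₀.mulVecLin (fun i => (A i).mulVecLin) x) =
      (A₀.map (algebraMap F E) + ∑ i, x i • (A i).map (algebraMap F E)).rank := by
  classical
  let bn := Algebra.TensorProduct.basis E (Pi.basisFun F (Fin n))
  let bm := Algebra.TensorProduct.basis E (Pi.basisFun F (Fin m))
  have h0 : ∀ B : Matrix (Fin m) (Fin n) F, LinearMap.toMatrix bn bm (B.mulVecLin.baseChange E) =
      B.map (algebraMap F E) := by
    intro B
    rw [LinearMap.toMatrix_baseChange]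
    congr 1
    ext i j
    rw [LinearMap.toMatrix_apply]
    simp
  have h1 : LinearMap.toMatrix bn bm (ev E A₀.mulVecLin (fun i => (A i).mulVecLin) x) =
      A₀.map (algebraMap F E) + ∑ i, x i • (A i).map (algebraMap F E) := by
    unfold ev
    rw [map_add, map_sum, h0]
    congr 1
    refine Finset.sum_congr rfl fun i _ => ?_
    rw [map_smul, h0]
  rw [← h1]
  unfold rk
  rw [Matrix.rank_eq_finrank_range_toLin _ bm bn, Matrix.toLin_toMatrix]

theorem rk_mulVecLin (B : Matrix (Fin m) (Fin n) F) : rk B.mulVecLin = B.rank := rfl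

end compare

section sound

variable {F : Type*} [Field F] {ι V W : Type*} [Fintype ι] [AddCommGroup V] [Module F V]
  [FiniteDimensional F V] [AddCommGroup W] [Module F W] [FiniteDimensional F W]

theorem rk_le_add {E X Y X' : Type*} [Field E] [AddCommGroup X] [Module E X]
    [FiniteDimensional E X] [AddCommGroup Y] [Module E Y] [AddCommGroup X'] [Module E X']
    [FiniteDimensional E X'] (T : X →ₗ[E] Y) (P : X' →ₗ[E] X) (hP : Function.Injective P) :
    rk T + finrank E X' ≤ rk (T ∘ₗ P) + finrank E X := by
  have h1 := LinearMap.finrank_range_add_finrank_ker T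
  have h2 := LinearMap.finrank_range_add_finrank_ker (T ∘ₗ P)
  have h3 : finrank E (LinearMap.ker (T ∘ₗ P)) ≤ finrank E (LinearMap.ker T) := by
    let φ : LinearMap.ker (T ∘ₗ P) →ₗ[E] LinearMap.ker T :=
      (P.comp (LinearMap.ker (T ∘ₗ P)).subtype).codRestrict _ (fun v => v.2)
    have hφ : Function.Injective φ := by
      intro a b hab
      have h4 : P (a : X') = P (b : X') :=
        congrArg (fun z : LinearMap.ker T => (z : X)) hab
      exact Subtype.ext (hP h4)
    exact LinearMap.finrank_le_finrank_of_injective hφ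
  unfold rk
  omega

theorem sound (E : Type*) [Field E] [Algebra F E] (A₀ : V →ₗ[F] W) (A : ι → V →ₗ[F] W)
    (x : ι → E) (U : Submodule F V) : rk (ev E A₀ A x) ≤ val A₀ A U := by
  have h1 := rk_le_add (ev E A₀ A x) (U.subtype.baseChange E)
    (Module.Flat.lTensor_preserves_injective_linearMap (M := E) _ U.injective_subtype)
  rw [Module.finrank_baseChange, Module.finrank_baseChange] at h1
  set Z := img A₀ A U with hZ
  let B₀ : U →ₗ[F] Z := (A₀ ∘ₗ U.subtype).codRestrict Z
    (fun v => map_zero_le_img A₀ A U ⟨v, v.2, rfl⟩)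
  let B : ι → U →ₗ[F] Z := fun i => (A i ∘ₗ U.subtype).codRestrict Z
    (fun v => map_le_img A₀ A U i ⟨v, v.2, rfl⟩)
  have h2 : ev E A₀ A x ∘ₗ U.subtype.baseChange E =
      Z.subtype.baseChange E ∘ₗ ev E B₀ B x := by
    have h3 := ev_comp E A₀ A x U.subtype (LinearMap.id (R := F) (M := W))
    have h4 := ev_comp E B₀ B x (LinearMap.id (R := F) (M := U)) Z.subtype
    simp only [LinearMap.baseChange_id, LinearMap.id_comp, LinearMap.comp_id] at h3 h4
    rw [← h3, ← h4]
    rfl
  have h5 : rk (ev E A₀ A x ∘ₗ U.subtype.baseChange E) ≤ finrank F Z := by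
    rw [h2]
    refine (rk_comp_le_left _ _).trans ?_
    rw [rk_baseChange, rk_of_injective Z.injective_subtype]
  have h6 := Submodule.finrank_le U
  unfold val
  rw [← hZ]
  omega

end sound

end Pool.Agent.V7H4.NC
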